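import Pool.Agent.L5helper73.AM.Cplx

/-!
# Coordinates on `X × Y`
-/

set_option autoImplicit false

open Set Filter Topology Metric

namespace Pool.Agent.L5helper73.AM

open Pool.Agent.W689.Ch Pool.Agent.TH845.Mk Pool.Agent.Y150.Ch Pool.Agent.L5helper91.CH
open Pool.Agent.L5helper76.CF (NoFld map_gen)
open Pool.Agent.W689.Mk (lin hol_cont hol_sub)

variable {X Γ E : Type} [TopologicalSpace X] [T2Space X] [Group Γ] [MulAction Γ X]
  [NormedAddCommGroup E] [NormedSpace ℝ E] [FiniteDimensional ℝ E]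
  {dev : X → E} {hol : Γ →* (E ≃ᵃ[ℝ] E)} {K : Subgroup Γ} {H : AffineSubspace ℝ E} {x₀ : X}

/-- coordinates over `H` -/
structure CoH (dev : X → E) (K : Subgroup Γ) (H : Set E) {A : Type} [MulAction K A]
    (u : A → X → ℝ) : Prop where
  pos : ∀ x, dev x ∈ H → ∃ a, 0 < u a x
  fin : ∀ x, dev x ∈ H → {a | 0 < u a x}.Finite
  cont : ∀ x, dev x ∈ H → ∀ ε > 0, ∀ᶠ z in 𝓝 x, dev z ∈ H → ∀ a, |u a z - u a x| < ε
  equi : ∀ (γ : K) a x, dev x ∈ H → u (γ • a) (γ.1 • x) = u a x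

omit [T2Space X] [NormedSpace ℝ E] [FiniteDimensional ℝ E] in
theorem coH_cov {A : Type} [MulAction K A] {u : A → X → ℝ} {H : Set E} (h : CoH dev K H u)
    (hH : IsClosed H) (hd : Continuous dev) :
    letI := moveAct K A
    CovH dev K H (fun σ : Finset A => {x | dev x ∈ H → x ∈ Bary u σ}) (fun σ => σ.card) := by
  letI := moveAct K A
  refine ⟨fun σ => ?_, fun x hx => ?_, ?_, ?_, ?_⟩
  · rw [isOpen_iff_mem_nhds]
    intro x hx
    by_cases hxH : dev x ∈ H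
    · obtain ⟨hσ, r, r', h0, h1, h2, h3⟩ := hx hxH
      filter_upwards [h.cont x hxH ((r - r') / 3) (by linarith)] with z hz hzH
      have hz' := hz hzH
      refine ⟨hσ, r - (r - r') / 3, r' + (r - r') / 3, by linarith, by linarith, ?_, ?_⟩
      · intro a ha
        have := abs_lt.1 (hz' a)
        have := h2 a ha
        linarith
      · intro b hb
        have := abs_lt.1 (hz' b)
        have := h3 b hb
        linarith
    · filter_upwards [(hH.isOpen_compl.preimage hd).mem_nhds hxH] with z hz hzH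
      exact absurd hzH hz
  · have hσ : ∀ a, a ∈ (h.fin x hx).toFinset ↔ 0 < u a x := fun a => by simp
    obtain ⟨a₀, ha₀⟩ := h.pos x hx
    have hne : (h.fin x hx).toFinset.Nonempty := ⟨a₀, (hσ a₀).2 ha₀⟩
    obtain ⟨a₁, ha₁, hmin⟩ := Finset.exists_min_image _ (fun a => u a x) hne
    have hpos := (hσ a₁).1 ha₁
    refine ⟨(h.fin x hx).toFinset, fun _ => ⟨hne, u a₁ x, u a₁ x / 2, by linarith, by linarith,
      hmin, ?_⟩⟩
    intro b hb
    rw [hσ, not_lt] at hb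
    linarith
  · rintro γ σ x hxH hx -
    obtain ⟨⟨a₀, ha₀⟩, r, r', h0, h1, h2, h3⟩ := hx hxH
    refine ⟨⟨γ • a₀, (mem_move γ σ a₀).2 ha₀⟩, r, r', h0, h1, ?_, ?_⟩
    · intro a ha
      have ha' : a ∈ move γ σ := ha
      rw [move_inv] at ha'
      have h4 := h.equi γ (γ⁻¹ • a) x hxH
      rw [smul_inv_smul] at h4
      rw [h4]
      exact h2 _ ha'
    · intro b hb
      have hb' : b ∉ move γ σ := hb
      rw [move_inv] at hb'
      have h4 := h.equi γ (γ⁻¹ • b) x hxH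
      rw [smul_inv_smul] at h4
      rw [h4]
      exact h3 _ hb'
  · intro γ σ
    exact Finset.card_map _
  · intro σ τ x hxH h1 h2 h3
    exact bary_inj (h1 hxH) (h2 hxH) h3

omit [T2Space X] [NormedAddCommGroup E] [NormedSpace ℝ E] [FiniteDimensional ℝ E] in
theorem coH_low {A : Type} {u : A → X → ℝ} {H : Set E} {σ : Finset A} {x : X}
    (hxH : dev x ∈ H) (hx : x ∈ Bary u σ) :
    (Low (fun σ : Finset A => {x | dev x ∈ H → x ∈ Bary u σ}) (fun σ => σ.card)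
      σ.card x).ncard < σ.card := by
  have h1 : 0 < σ.card := Finset.card_pos.2 (bary_pos hx).1
  have h2 : (Low (fun σ : Finset A => {x | dev x ∈ H → x ∈ Bary u σ}) (fun σ => σ.card)
      σ.card x).ncard ≤ (↑(Finset.Ico 1 σ.card) : Set ℕ).ncard := by
    refine Set.ncard_le_ncard_of_injOn (fun τ : Finset A => τ.card) ?_ ?_ (Finset.finite_toSet _)
    · rintro τ ⟨hτ, hτσ⟩
      rw [Finset.coe_Ico]
      exact ⟨Finset.card_pos.2 (bary_pos (hτ hxH)).1, hτσ⟩
    · rintro τ ⟨hτ, -⟩ τ' ⟨hτ', -⟩ h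
      exact bary_inj (hτ hxH) (hτ' hxH) h
  rw [Set.ncard_coe_finset, Nat.card_Ico] at h2
  omega

/-- coordinates on the part of `X × Y` over `H` -/
structure CoXY (dev : X → E) (K : Subgroup Γ) (H : Set E) {A Y : Type} [TopologicalSpace Y]
    [MulAction K Y] [MulAction K A] (w : A → X → Y → ℝ) : Prop where
  pos : ∀ x, dev x ∈ H → ∀ y, ∃ a, 0 < w a x y
  fin : ∀ x, dev x ∈ H → ∀ y, {a | 0 < w a x y}.Finite
  cont : ∀ x, dev x ∈ H → ∀ y, ∀ ε > 0, ∀ᶠ p : X × Y in 𝓝 (x, y), dev p.1 ∈ H →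
    ∀ a, |w a p.1 p.2 - w a x y| < ε
  equi : ∀ (γ : K) a x, dev x ∈ H → ∀ y, w (γ • a) (γ.1 • x) (γ • y) = w a x y

/-- the simplices -/
def SimXY (dev : X → E) (H : Set E) {A Y : Type} (w : A → X → Y → ℝ) (σ : Finset A) : Prop :=
  σ.Nonempty ∧ ∃ x, dev x ∈ H ∧ ∃ y, ∀ a ∈ σ, 0 < w a x y

section move
variable {A Y : Type} [TopologicalSpace Y] [MulAction K Y] [MulAction K A] {w : A → X → Y → ℝ}

omit [TopologicalSpace X] [T2Space X] [FiniteDimensional ℝ E] in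
theorem sim_move_aux (hinv : ∀ γ ∈ K, ∀ x, dev x ∈ H → dev (γ • x) ∈ H)
    (he : ∀ (γ : K) a x, dev x ∈ H → ∀ y, w (γ • a) (γ.1 • x) (γ • y) = w a x y)
    (γ : K) (σ : Finset A) (h : SimXY dev H w σ) : SimXY dev H w (move γ σ) := by
  obtain ⟨⟨a, ha⟩, x, hx, y, hy⟩ := h
  refine ⟨⟨γ • a, (mem_move γ σ a).2 ha⟩, γ.1 • x, hinv γ.1 γ.2 x hx, γ • y, fun b hb => ?_⟩
  rw [move_inv] at hb
  have h4 := he γ (γ⁻¹ • b) x hx y
  rw [smul_inv_smul] at h4
  rw [h4]
  exact hy _ hb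

omit [TopologicalSpace X] [T2Space X] [FiniteDimensional ℝ E] in
theorem sim_move (hinv : ∀ γ ∈ K, ∀ x, dev x ∈ H → dev (γ • x) ∈ H)
    (he : ∀ (γ : K) a x, dev x ∈ H → ∀ y, w (γ • a) (γ.1 • x) (γ • y) = w a x y)
    (γ : K) (σ : Finset A) : SimXY dev H w (move γ σ) ↔ SimXY dev H w σ := by
  refine ⟨fun h2 => ?_, sim_move_aux hinv he γ σ⟩
  have h3 := sim_move_aux hinv he γ⁻¹ _ h2
  have h4 : move γ⁻¹ (move γ σ) = σ := by
    ext a
    rw [move_inv, inv_inv, mem_move]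
  rwa [h4] at h3

end move

omit [T2Space X] [FiniteDimensional ℝ E] in
theorem coH_of {A Y : Type} [TopologicalSpace Y] [MulAction K Y] [MulAction K A]
    {w : A → X → Y → ℝ} (h : CoXY dev K H w) {f : X → Y} (hfc : Continuous f)
    (hfe : ∀ (γ : K) x, f (γ.1 • x) = γ • f x) : CoH dev K (H : Set E) (fun a x => w a x (f x)) := by
  refine ⟨fun x hx => h.pos x hx _, fun x hx => h.fin x hx _, fun x hx ε hε => ?_, ?_⟩
  · have h1 := h.cont x hx (f x) ε hε
    have h2 : Tendsto (fun z => (z, f z)) (𝓝 x) (𝓝 (x, f x)) :=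
      (continuous_id.prodMk hfc).continuousAt
    exact h2.eventually h1
  · intro γ a x hx
    show w (γ • a) (γ.1 • x) (f (γ.1 • x)) = _
    rw [hfe]
    exact h.equi γ a x hx _

/-- **Complexes**, vectors -/
theorem vec_xy (D : AffMfd X Γ E dev hol) (hf : ∀ (γ : Γ) (x : X), γ • x = x → γ = 1)
    (m : NoFld dev hol K H x₀)
    {A Y : Type} [TopologicalSpace Y] [ContractibleSpace Y] [MulAction K Y] [MulAction K A]
    (hY : ∀ γ : K, Continuous fun y : Y => γ • y) {w : A → X → Y → ℝ} (h : CoXY dev K H w)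
    {F : Finset A → Submodule ℝ E} {W : Submodule ℝ E}
    (hWV : W ≤ H.direction) (hW : ∀ γ ∈ K, ∀ v ∈ W, lin hol γ v ∈ W)
    (hWF : ∀ σ, SimXY dev H w σ → W ≤ F σ ∧ F σ ≤ H.direction)
    (hF : ∀ (γ : K) σ, SimXY dev H w σ → ∀ v ∈ F σ, lin hol γ.1 v ∈ F (move γ σ))
    (hs : ∀ (γ : K) σ, SimXY dev H w σ → move γ σ = σ →
      ∃ c : ℝ, 0 < c ∧ ∀ v ∈ F σ, lin hol γ.1 v - c • v ∈ W) :
    ∃ σ, SimXY dev H w σ ∧ Module.finrank ℝ (F σ) < Module.finrank ℝ W + σ.card := by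
  classical
  obtain ⟨f, hfc, hfe⟩ := emap D hf m.fin hY
  have hinv : ∀ γ ∈ K, ∀ x, dev x ∈ H → dev (γ • x) ∈ H := fun γ hγ x hx => by
    rw [D.equi]
    exact m.inv γ hγ _ hx
  have hsm : ∀ (γ : K) σ, SimXY dev H w (move γ σ) ↔ SimXY dev H w σ :=
    fun γ σ => sim_move hinv h.equi γ σ
  letI := moveAct K A
  obtain ⟨σ, x, hx, hxσ, h1⟩ := vec_sub D m.fin m.mem m.inv m.fld
    (coH_cov (coH_of h hfc hfe) H.closed_of_finiteDimensional D.loc.continuous)
    (F := fun σ => if SimXY dev H w σ then F σ else W) (W := W) hWV hW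
    (by
      intro σ
      by_cases hσ : SimXY dev H w σ
      · rw [if_pos hσ]
        exact hWF σ hσ
      · rw [if_neg hσ]
        exact ⟨le_rfl, hWV⟩)
    (by
      intro γ σ v hv
      show lin hol γ.1 v ∈ (if SimXY dev H w (move γ σ) then F (move γ σ) else W)
      by_cases hσ : SimXY dev H w σ
      · rw [if_pos hσ] at hv
        rw [if_pos ((hsm γ σ).2 hσ)]
        exact hF γ σ hσ v hv
      · rw [if_neg hσ] at hv
        rw [if_neg fun h => hσ ((hsm γ σ).1 h)]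
        exact hW γ.1 γ.2 v hv)
    (by
      intro γ σ hγ
      by_cases hσ : SimXY dev H w σ
      · rw [if_pos hσ]
        exact hs γ σ hσ hγ
      · rw [if_neg hσ]
        exact ⟨1, one_pos, fun v hv => W.sub_mem (hW γ.1 γ.2 v hv) (W.smul_mem _ hv)⟩)
  have hxσ' := hxσ hx
  have h2 : SimXY dev H w σ := ⟨(bary_pos hxσ').1, x, hx, f x, (bary_pos hxσ').2⟩
  have h1' : Module.finrank ℝ (if SimXY dev H w σ then F σ else W : Submodule ℝ E) ≤
    Module.finrank ℝ W +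
      (Low (fun σ : Finset A => {x | dev x ∈ (H : Set E) → x ∈ Bary (fun a x => w a x (f x)) σ})
        (fun σ => σ.card) σ.card x).ncard := h1
  rw [if_pos h2] at h1'
  have h3 := coH_low (H := (H : Set E)) hx hxσ'
  exact ⟨σ, h2, by omega⟩

/-- **Complexes**, forms -/
theorem form_xy (D : AffMfd X Γ E dev hol) (hf : ∀ (γ : Γ) (x : X), γ • x = x → γ = 1)
    (m : NoFld dev hol K H x₀)
    {A Y : Type} [TopologicalSpace Y] [ContractibleSpace Y] [MulAction K Y] [MulAction K A]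
    (hY : ∀ γ : K, Continuous fun y : Y => γ • y) {w : A → X → Y → ℝ} (h : CoXY dev K H w)
    {N : Finset A → Submodule ℝ E} {W : Submodule ℝ E}
    (hWV : W ≤ H.direction) (hW : ∀ γ ∈ K, ∀ v ∈ W, lin hol γ v ∈ W)
    (hNW : ∀ σ, SimXY dev H w σ → N σ ≤ W)
    (hN : ∀ (γ : K) σ, SimXY dev H w σ → ∀ v ∈ N σ, lin hol γ.1 v ∈ N (move γ σ))
    (hs : ∀ (γ : K) σ, SimXY dev H w σ → move γ σ = σ →
      ∃ c : ℝ, 0 < c ∧ ∀ v ∈ W, lin hol γ.1 v - c • v ∈ N σ) :
    ∃ σ, SimXY dev H w σ ∧ Module.finrank ℝ W < Module.finrank ℝ (N σ) + σ.card := by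
  classical
  obtain ⟨f, hfc, hfe⟩ := emap D hf m.fin hY
  have hinv : ∀ γ ∈ K, ∀ x, dev x ∈ H → dev (γ • x) ∈ H := fun γ hγ x hx => by
    rw [D.equi]
    exact m.inv γ hγ _ hx
  have hsm : ∀ (γ : K) σ, SimXY dev H w (move γ σ) ↔ SimXY dev H w σ :=
    fun γ σ => sim_move hinv h.equi γ σ
  letI := moveAct K A
  obtain ⟨σ, x, hx, hxσ, h1⟩ := form_sub D m.fin m.mem m.inv m.fld
    (coH_cov (coH_of h hfc hfe) H.closed_of_finiteDimensional D.loc.continuous)
    (N := fun σ => if SimXY dev H w σ then N σ else W) (W := W) hWV hW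
    (by
      intro σ
      by_cases hσ : SimXY dev H w σ
      · rw [if_pos hσ]
        exact hNW σ hσ
      · rw [if_neg hσ])
    (by
      intro γ σ v hv
      show lin hol γ.1 v ∈ (if SimXY dev H w (move γ σ) then N (move γ σ) else W)
      by_cases hσ : SimXY dev H w σ
      · rw [if_pos hσ] at hv
        rw [if_pos ((hsm γ σ).2 hσ)]
        exact hN γ σ hσ v hv
      · rw [if_neg hσ] at hv
        rw [if_neg fun h => hσ ((hsm γ σ).1 h)]
        exact hW γ.1 γ.2 v hv)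
    (by
      intro γ σ hγ
      by_cases hσ : SimXY dev H w σ
      · rw [if_pos hσ]
        exact hs γ σ hσ hγ
      · rw [if_neg hσ]
        exact ⟨1, one_pos, fun v hv => W.sub_mem (hW γ.1 γ.2 v hv) (W.smul_mem _ hv)⟩)
  have hxσ' := hxσ hx
  have h2 : SimXY dev H w σ := ⟨(bary_pos hxσ').1, x, hx, f x, (bary_pos hxσ').2⟩
  have h1' : Module.finrank ℝ W ≤
    Module.finrank ℝ (if SimXY dev H w σ then N σ else W : Submodule ℝ E) +
      (Low (fun σ : Finset A => {x | dev x ∈ (H : Set E) → x ∈ Bary (fun a x => w a x (f x)) σ})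
        (fun σ => σ.card) σ.card x).ncard := h1
  rw [if_pos h2] at h1'
  have h3 := coH_low (H := (H : Set E)) hx hxσ'
  exact ⟨σ, h2, by omega⟩

end Pool.Agent.L5helper73.AM
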