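import Pool.Agent.L5helper73.AM.Zero

/-!
# Consequences for covectors, points, invariant sets and maps
-/

set_option autoImplicit false

open Set Filter Topology Metric

namespace Pool.Agent.L5helper73.AM

open Pool.Agent.W689.Ch Pool.Agent.TH845.Mk Pool.Agent.Y150.Ch Pool.Agent.L5helper91.CH
open Pool.Agent.L5helper76.CF (NoFld map_gen)
open Pool.Agent.W689.Mk (lin hol_cont hol_sub hol_add)

variable {X Γ E : Type} [TopologicalSpace X] [T2Space X] [Group Γ] [MulAction Γ X]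
  [NormedAddCommGroup E] [NormedSpace ℝ E] [FiniteDimensional ℝ E]
  {dev : X → E} {hol : Γ →* (E ≃ᵃ[ℝ] E)} {K : Subgroup Γ} {H : AffineSubspace ℝ E} {x₀ : X}

/-- equivariant maps to contractible spaces -/
theorem emap (D : AffMfd X Γ E dev hol) (hf : ∀ (γ : Γ) (x : X), γ • x = x → γ = 1)
    (hK : K.FiniteIndex) {Y : Type} [TopologicalSpace Y] [ContractibleSpace Y] [MulAction K Y]
    (hY : ∀ γ : K, Continuous fun y : Y => γ • y) :
    ∃ f : X → Y, Continuous f ∧ ∀ (γ : K) (x : X), f (γ.1 • x) = γ • f x := by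
  have := locComp D
  exact exists_map (Y := Y) (freeCC (restr D K hK) fun γ x h =>
    Subtype.ext (hf γ.1 x h)) hY

theorem cov_sub (D : AffMfd X Γ E dev hol) (hf : ∀ (γ : Γ) (x : X), γ • x = x → γ = 1)
    (m : NoFld dev hol K H x₀)
    {Y : Type} [TopologicalSpace Y] [ContractibleSpace Y] [MulAction K Y]
    (hY : ∀ γ : K, Continuous fun y : Y => γ • y)
    {l : X → Y → E →ₗ[ℝ] ℝ}
    (hl : ∀ v ∈ H.direction,
      ContinuousOn (fun p : X × Y => l p.1 p.2 v) ({x | dev x ∈ H} ×ˢ univ))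
    (he : ∀ (γ : K) x, dev x ∈ H → ∀ y, ∃ c : ℝ, 0 < c ∧ ∀ v ∈ H.direction,
      l (γ.1 • x) (γ • y) (lin hol γ.1 v) = c * l x y v) :
    ∃ x, dev x ∈ H ∧ ∃ y, ∀ v ∈ H.direction, l x y v = 0 := by
  by_contra hcon
  push Not at hcon
  obtain ⟨x, hx, y, hy⟩ := conv_sub D hf m hY (S := fun x y => {v | v ∈ H.direction ∧ 0 < l x y v})
    (fun x _ y v hv => hv.1)
    (fun x hx y => by
      obtain ⟨v, hv, h⟩ := hcon x hx y
      rcases lt_or_gt_of_ne h with h | h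
      · refine ⟨-v, H.direction.neg_mem hv, ?_⟩
        rw [map_neg]
        linarith
      · exact ⟨v, hv, h⟩)
    (fun x _ y => by
      intro v hv w hw a b ha hb hab
      refine ⟨H.direction.add_mem (H.direction.smul_mem _ hv.1) (H.direction.smul_mem _ hw.1), ?_⟩
      have h1 : 0 < l x y v := hv.2
      have h2 : 0 < l x y w := hw.2
      rw [map_add, map_smul, map_smul, smul_eq_mul, smul_eq_mul]
      rcases ha.eq_or_lt with h | h
      · rw [← h] at hab ⊢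
        have : b = 1 := by linarith
        rw [this]
        linarith
      · have := mul_pos h h1
        have := mul_nonneg hb h2.le
        linarith)
    (fun x hx y v hv => by
      have h1 := (hl v hv.1) (x, y) ⟨hx, mem_univ _⟩
      have h2 : ∀ᶠ p : X × Y in 𝓝[{x | dev x ∈ H} ×ˢ univ] (x, y), 0 < l p.1 p.2 v :=
        h1.eventually (lt_mem_nhds hv.2)
      rw [eventually_nhdsWithin_iff] at h2
      filter_upwards [h2] with p hp hpH
      exact ⟨hv.1, hp ⟨hpH, mem_univ _⟩⟩)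
    (fun γ x hx y v hv => by
      obtain ⟨c, hc, h1⟩ := he γ x hx y
      refine ⟨?_, ?_⟩
      · have h2 := sub_mem_dir (m.inv γ.1 γ.2 _ hx)
          (m.inv γ.1 γ.2 _ (add_mem_H hx ⟨v, hv.1⟩))
        rwa [hol_add, add_sub_cancel_left] at h2
      · rw [h1 v hv.1]
        exact mul_pos hc hv.2)
  have h1 : (0 : ℝ) < l x y 0 := hy.2
  rw [map_zero] at h1
  exact lt_irrefl _ h1

theorem point_sub (D : AffMfd X Γ E dev hol) (hf : ∀ (γ : Γ) (x : X), γ • x = x → γ = 1)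
    (m : NoFld dev hol K H x₀)
    {Y : Type} [TopologicalSpace Y] [ContractibleSpace Y] [MulAction K Y]
    (hY : ∀ γ : K, Continuous fun y : Y => γ • y)
    {P : X → Y → Set E} (hH : ∀ x, dev x ∈ H → ∀ y, P x y ⊆ H)
    (hne : ∀ x, dev x ∈ H → ∀ y, (P x y).Nonempty)
    (hc : ∀ x, dev x ∈ H → ∀ y, Convex ℝ (P x y))
    (ho : ∀ x, dev x ∈ H → ∀ y, ∀ q ∈ P x y, ∀ᶠ p : X × Y in 𝓝 (x, y),
      dev p.1 ∈ H → q ∈ P p.1 p.2)
    (he : ∀ (γ : K) x, dev x ∈ H → ∀ y, ∀ q ∈ P x y, hol γ.1 q ∈ P (γ.1 • x) (γ • y)) :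
    ∃ x, dev x ∈ H ∧ ∃ y, dev x ∈ P x y := by
  obtain ⟨f, hfc, hfe⟩ := emap D hf m.fin hY
  obtain ⟨x, hx, h⟩ := map_gen D m (Φ := fun x => P x (f x)) (fun x hx => hne x hx _)
    (fun x hx => hc x hx _) (fun x hx => hH x hx _)
    (fun γ hγ x hx q hq => by
      rw [hfe ⟨γ, hγ⟩ x]
      exact he ⟨γ, hγ⟩ x hx _ q hq)
    (fun x hx q hq => by
      have h1 := ho x hx (f x) q hq
      have h2 : Tendsto (fun z => (z, f z)) (𝓝 x) (𝓝 (x, f x)) :=
        (continuous_id.prodMk hfc).continuousAt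
      exact h2.eventually h1)
  exact ⟨x, hx, f x, h⟩

/-- the action on an invariant set -/
@[reducible] def setAct {S : Set E} (hS : ∀ γ ∈ K, ∀ q ∈ S, hol γ q ∈ S) : MulAction K S where
  smul γ q := ⟨hol γ.1 q.1, hS γ.1 γ.2 q.1 q.2⟩
  one_smul q := Subtype.ext (by
    show hol ((1 : K) : Γ) q.1 = q.1
    rw [Subgroup.coe_one, map_one]
    rfl)
  mul_smul γ δ q := Subtype.ext (by
    show hol ((γ * δ : K) : Γ) q.1 = hol γ.1 (hol δ.1 q.1)
    rw [Subgroup.coe_mul, map_mul]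
    rfl)

/-- equivariant maps to invariant contractible sets -/
theorem smap (D : AffMfd X Γ E dev hol) (hf : ∀ (γ : Γ) (x : X), γ • x = x → γ = 1)
    (hK : K.FiniteIndex) {S : Set E} (hSc : ContractibleSpace S)
    (hS : ∀ γ ∈ K, ∀ q ∈ S, hol γ q ∈ S) :
    ∃ f : X → E, Continuous f ∧ (∀ x, f x ∈ S) ∧ ∀ γ ∈ K, ∀ x, f (γ • x) = hol γ (f x) := by
  let _ := setAct hS
  obtain ⟨f, hfc, hfe⟩ := emap (K := K) D hf hK (Y := S) (fun γ =>
    ((hol_cont γ.1).comp continuous_subtype_val).subtype_mk _)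
  refine ⟨fun x => (f x).1, continuous_subtype_val.comp hfc, fun x => (f x).2, fun γ hγ x => ?_⟩
  have h1 := hfe ⟨γ, hγ⟩ x
  exact congrArg Subtype.val h1

/-- **Coincidences** -/
theorem coinc (D : AffMfd X Γ E dev hol) (hf : ∀ (γ : Γ) (x : X), γ • x = x → γ = 1)
    (m : NoFld dev hol K H x₀)
    {Y : Type} [TopologicalSpace Y] [ContractibleSpace Y] [MulAction K Y]
    (hY : ∀ γ : K, Continuous fun y : Y => γ • y)
    {a b : X → Y → E} (ha : ContinuousOn (fun p : X × Y => a p.1 p.2) ({x | dev x ∈ H} ×ˢ univ))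
    (hb : ContinuousOn (fun p : X × Y => b p.1 p.2) ({x | dev x ∈ H} ×ˢ univ))
    (haH : ∀ x, dev x ∈ H → ∀ y, a x y ∈ H) (hbH : ∀ x, dev x ∈ H → ∀ y, b x y ∈ H)
    (hae : ∀ (γ : K) x, dev x ∈ H → ∀ y, a (γ.1 • x) (γ • y) = hol γ.1 (a x y))
    (hbe : ∀ (γ : K) x, dev x ∈ H → ∀ y, b (γ.1 • x) (γ • y) = hol γ.1 (b x y)) :
    ∃ x, dev x ∈ H ∧ ∃ y, a x y = b x y := by
  obtain ⟨x, hx, y, h⟩ := zero_sub D hf m hY (s := fun x y => a x y - b x y) (ha.sub hb)
    (fun x hx y => sub_mem_dir (hbH x hx y) (haH x hx y))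
    (fun γ x hx y => ⟨1, one_pos, by
      show a (γ.1 • x) (γ • y) - b (γ.1 • x) (γ • y) = _
      rw [hae γ x hx, hbe γ x hx, hol_sub, one_smul]⟩)
  exact ⟨x, hx, y, sub_eq_zero.1 h⟩

/-- **Invariant contractible sets intersect** -/
theorem sets (D : AffMfd X Γ E dev hol) (hf : ∀ (γ : Γ) (x : X), γ • x = x → γ = 1)
    (m : NoFld dev hol K H x₀) {S T : Set E} (hSH : S ⊆ H) (hTH : T ⊆ H)
    (hSc : ContractibleSpace S) (hTc : ContractibleSpace T)
    (hS : ∀ γ ∈ K, ∀ q ∈ S, hol γ q ∈ S) (hT : ∀ γ ∈ K, ∀ q ∈ T, hol γ q ∈ T) :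
    (S ∩ T).Nonempty := by
  obtain ⟨f, hfc, hfS, hfe⟩ := smap D hf m.fin hSc hS
  obtain ⟨g, hgc, hgS, hge⟩ := smap D hf m.fin hTc hT
  let _ : MulAction K Unit := { smul := fun _ _ => (), one_smul := fun _ => rfl,
                                mul_smul := fun _ _ _ => rfl }
  obtain ⟨x, hx, -, h⟩ := coinc D hf m (Y := Unit) (fun γ => continuous_const)
    (a := fun x _ => f x) (b := fun x _ => g x) (hfc.comp continuous_fst).continuousOn
    (hgc.comp continuous_fst).continuousOn (fun x _ _ => hSH (hfS x)) (fun x _ _ => hTH (hgS x))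
    (fun γ x _ _ => hfe γ.1 γ.2 x) (fun γ x _ _ => hge γ.1 γ.2 x)
  exact ⟨f x, hfS x, by rw [h]; exact hgS x⟩

theorem developed (D : AffMfd X Γ E dev hol) (hf : ∀ (γ : Γ) (x : X), γ • x = x → γ = 1)
    (m : NoFld dev hol K H x₀) {S : Set E} (hSH : S ⊆ H) (hSc : ContractibleSpace S)
    (hS : ∀ γ ∈ K, ∀ q ∈ S, hol γ q ∈ S) : ∃ x, dev x ∈ S := by
  obtain ⟨f, hfc, hfS, hfe⟩ := smap D hf m.fin hSc hS
  let _ : MulAction K Unit := { smul := fun _ _ => (), one_smul := fun _ => rfl,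
                                mul_smul := fun _ _ _ => rfl }
  obtain ⟨x, hx, -, h⟩ := coinc D hf m (Y := Unit) (fun γ => continuous_const)
    (a := fun x _ => f x) (b := fun x _ => dev x) (hfc.comp continuous_fst).continuousOn
    (D.loc.continuous.comp continuous_fst).continuousOn (fun x _ _ => hSH (hfS x))
    (fun x hx _ => hx) (fun γ x _ _ => hfe γ.1 γ.2 x) (fun γ x _ _ => D.equi γ.1 x)
  refine ⟨x, ?_⟩
  have h1 := hfS x
  rwa [show f x = dev x from h] at h1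

/-- **Fixed points** -/
theorem fixed (D : AffMfd X Γ E dev hol) (hf : ∀ (γ : Γ) (x : X), γ • x = x → γ = 1)
    (m : NoFld dev hol K H x₀)
    {Y : Type} [TopologicalSpace Y] [ContractibleSpace Y] [MulAction K Y]
    (hY : ∀ γ : K, Continuous fun y : Y => γ • y) {S : Set E} (hSH : S ⊆ H)
    (hSc : ContractibleSpace S) (hS : ∀ γ ∈ K, ∀ q ∈ S, hol γ q ∈ S)
    {g : Y → E → E} (hg : ContinuousOn (fun p : Y × E => g p.1 p.2) (univ ×ˢ H))
    (hgH : ∀ y, ∀ q ∈ H, g y q ∈ H)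
    (hge : ∀ (γ : K) y, ∀ q ∈ H, g (γ • y) (hol γ.1 q) = hol γ.1 (g y q)) :
    ∃ y, ∃ q ∈ S, g y q = q := by
  obtain ⟨f, hfc, hfS, hfe⟩ := smap D hf m.fin hSc hS
  obtain ⟨x, hx, y, h⟩ := coinc D hf m hY
    (a := fun x y => g y (f x)) (b := fun x _ => f x) (by
      refine hg.comp (f := fun p : X × Y => (p.2, f p.1))
        (continuous_snd.prodMk (hfc.comp continuous_fst)).continuousOn ?_
      exact fun p _ => ⟨mem_univ _, hSH (hfS p.1)⟩)
    (hfc.comp continuous_fst).continuousOn (fun x _ y => hgH y _ (hSH (hfS x)))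
    (fun x _ _ => hSH (hfS x)) (fun γ x _ y => by
      show g (γ • y) (f (γ.1 • x)) = _
      rw [hfe γ.1 γ.2 x, hge γ y _ (hSH (hfS x))])
    (fun γ x _ _ => hfe γ.1 γ.2 x)
  exact ⟨y, f x, hfS x, h⟩

end Pool.Agent.L5helper73.AM
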