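import Pool.Agent.L5helper73.AM.Cons

/-!
# Actions on contractible complexes
-/

set_option autoImplicit false

open Set Filter Topology Metric

namespace Pool.Agent.L5helper73.AM

open Pool.Agent.W689.Ch Pool.Agent.TH845.Mk Pool.Agent.Y150.Ch Pool.Agent.L5helper91.CH
open Pool.Agent.L5helper76.CF (NoFld map_gen)
open Pool.Agent.W689.Mk (lin hol_cont hol_sub)

section coord

variable {K A Y : Type} [Group K] [TopologicalSpace Y] [MulAction K Y] [MulAction K A]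

/-- barycentric coordinates -/
structure Coord (K : Type) {A Y : Type} [Group K] [TopologicalSpace Y] [MulAction K Y]
    [MulAction K A] (w : A → Y → ℝ) : Prop where
  nonneg : ∀ a y, 0 ≤ w a y
  pos : ∀ y, ∃ a, 0 < w a y
  fin : ∀ y, {a | 0 < w a y}.Finite
  cont : ∀ y, ∀ ε > 0, ∀ᶠ z in 𝓝 y, ∀ a, |w a z - w a y| < ε
  equi : ∀ (γ : K) a y, w (γ • a) (γ • y) = w a y

/-- the image of a finite set -/
def move (γ : K) (σ : Finset A) : Finset A := σ.map (MulAction.toPerm γ).toEmbedding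

/-- the action on finite sets -/
@[reducible] def moveAct (K A : Type) [Group K] [MulAction K A] : MulAction K (Finset A) where
  smul γ σ := move γ σ
  one_smul σ := by
    show move (1 : K) σ = σ
    ext a
    simp [move]
  mul_smul γ δ σ := by
    show move (γ * δ) σ = move γ (move δ σ)
    ext a
    simp [move, mul_smul]

theorem mem_move (γ : K) (σ : Finset A) (a : A) : γ • a ∈ move γ σ ↔ a ∈ σ := by
  simp [move]

theorem move_inv (γ : K) (σ : Finset A) (a : A) : a ∈ move γ σ ↔ γ⁻¹ • a ∈ σ := by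
  rw [← mem_move γ σ (γ⁻¹ • a), smul_inv_smul]

/-- the sets of points which are near the barycentre of the simplex `σ` -/
def Bary (w : A → Y → ℝ) (σ : Finset A) : Set Y :=
  {y | σ.Nonempty ∧ ∃ r r' : ℝ, 0 < r' ∧ r' < r ∧ (∀ a ∈ σ, r ≤ w a y) ∧ ∀ b, b ∉ σ → w b y ≤ r'}

variable {w : A → Y → ℝ}

theorem bary_open (h : Coord K w) (σ : Finset A) : IsOpen (Bary w σ) := by
  rw [isOpen_iff_mem_nhds]
  rintro y ⟨hσ, r, r', h0, h1, h2, h3⟩
  filter_upwards [h.cont y ((r - r') / 3) (by linarith)] with z hz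
  refine ⟨hσ, r - (r - r') / 3, r' + (r - r') / 3, by linarith, by linarith, ?_, ?_⟩
  · intro a ha
    have := abs_lt.1 (hz a)
    have := h2 a ha
    linarith
  · intro b hb
    have := abs_lt.1 (hz b)
    have := h3 b hb
    linarith

theorem bary_cover (h : Coord K w) (y : Y) : ∃ σ : Finset A, y ∈ Bary w σ := by
  have hσ : ∀ a, a ∈ (h.fin y).toFinset ↔ 0 < w a y := fun a => by simp
  obtain ⟨a₀, ha₀⟩ := h.pos y
  have hne : (h.fin y).toFinset.Nonempty := ⟨a₀, (hσ a₀).2 ha₀⟩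
  obtain ⟨a₁, ha₁, hmin⟩ := Finset.exists_min_image _ (fun a => w a y) hne
  have hpos := (hσ a₁).1 ha₁
  refine ⟨(h.fin y).toFinset, hne, w a₁ y, w a₁ y / 2, by linarith, by linarith, hmin, ?_⟩
  intro b hb
  rw [hσ, not_lt] at hb
  linarith

theorem bary_move (h : Coord K w) (γ : K) (σ : Finset A) (y : Y) (hy : y ∈ Bary w σ) :
    γ • y ∈ Bary w (move γ σ) := by
  obtain ⟨⟨a₀, ha₀⟩, r, r', h0, h1, h2, h3⟩ := hy
  refine ⟨⟨γ • a₀, (mem_move γ σ a₀).2 ha₀⟩, r, r', h0, h1, ?_, ?_⟩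
  · intro a ha
    rw [move_inv] at ha
    have h4 := h.equi γ (γ⁻¹ • a) y
    rw [smul_inv_smul] at h4
    rw [h4]
    exact h2 _ ha
  · intro b hb
    rw [move_inv] at hb
    have h4 := h.equi γ (γ⁻¹ • b) y
    rw [smul_inv_smul] at h4
    rw [h4]
    exact h3 _ hb

theorem bary_chain {σ τ : Finset A} {y : Y} (h1 : y ∈ Bary w σ) (h2 : y ∈ Bary w τ) :
    σ ⊆ τ ∨ τ ⊆ σ := by
  by_contra hcon
  push Not at hcon
  obtain ⟨h3, h4⟩ := hcon
  rw [Finset.not_subset] at h3 h4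
  obtain ⟨a, ha, ha'⟩ := h3
  obtain ⟨b, hb, hb'⟩ := h4
  obtain ⟨-, r, r', -, hr, hs1, hs2⟩ := h1
  obtain ⟨-, q, q', -, hq, ht1, ht2⟩ := h2
  have e1 := hs1 a ha
  have e2 := hs2 b hb'
  have e3 := ht1 b hb
  have e4 := ht2 a ha'
  linarith

theorem bary_inj {σ τ : Finset A} {y : Y} (h1 : y ∈ Bary w σ) (h2 : y ∈ Bary w τ)
    (h3 : σ.card = τ.card) : σ = τ := by
  rcases bary_chain h1 h2 with h | h
  · exact Finset.eq_of_subset_of_card_le h h3.ge
  · exact (Finset.eq_of_subset_of_card_le h h3.le).symm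

theorem bary_pos {σ : Finset A} {y : Y} (h : y ∈ Bary w σ) :
    σ.Nonempty ∧ ∀ a ∈ σ, 0 < w a y := by
  obtain ⟨h0, r, r', h1, h2, h3, -⟩ := h
  exact ⟨h0, fun a ha => by have := h3 a ha; linarith⟩

end coord

/-- the simplices -/
def Simp {A Y : Type} (w : A → Y → ℝ) (σ : Finset A) : Prop :=
  σ.Nonempty ∧ ∃ y, ∀ a ∈ σ, 0 < w a y

variable {X Γ E : Type} [TopologicalSpace X] [T2Space X] [Group Γ] [MulAction Γ X]
  [NormedAddCommGroup E] [NormedSpace ℝ E] [FiniteDimensional ℝ E]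
  {dev : X → E} {hol : Γ →* (E ≃ᵃ[ℝ] E)} {K : Subgroup Γ} {H : AffineSubspace ℝ E} {x₀ : X}

omit [T2Space X] [FiniteDimensional ℝ E] [NormedSpace ℝ E] in
/-- the cover of `X` -/
theorem cplx_cov {A Y : Type} [TopologicalSpace Y] [MulAction K Y] [MulAction K A]
    {w : A → Y → ℝ} (h : Coord K w) {f : X → Y} (hfc : Continuous f)
    (hfe : ∀ (γ : K) x, f (γ.1 • x) = γ • f x) {H : Set E} :
    letI := moveAct K A
    CovH dev K H (fun σ : Finset A => f ⁻¹' Bary w σ) (fun σ => σ.card) := by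
  letI := moveAct K A
  refine ⟨fun σ => (bary_open h σ).preimage hfc, fun x _ => bary_cover h (f x), ?_, ?_, ?_⟩
  · intro γ σ x _ hx
    show f (γ.1 • x) ∈ Bary w (move γ σ)
    rw [hfe]
    exact bary_move h γ σ _ hx
  · intro γ σ
    exact Finset.card_map _
  · intro σ τ x _ h1 h2 h3
    exact bary_inj h1 h2 h3

omit [T2Space X] in
theorem cplx_low {A Y : Type} {w : A → Y → ℝ} {f : X → Y} {σ : Finset A} {x : X}
    (hx : x ∈ f ⁻¹' Bary w σ) :
    (Low (fun σ : Finset A => f ⁻¹' Bary w σ) (fun σ => σ.card) σ.card x).ncard < σ.card := by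
  have h1 : 0 < σ.card := Finset.card_pos.2 (bary_pos hx).1
  have h2 : (Low (fun σ : Finset A => f ⁻¹' Bary w σ) (fun σ => σ.card) σ.card x).ncard ≤
      (↑(Finset.Ico 1 σ.card) : Set ℕ).ncard := by
    refine Set.ncard_le_ncard_of_injOn (fun τ : Finset A => τ.card) ?_ ?_ (Finset.finite_toSet _)
    · rintro τ ⟨hτ, hτσ⟩
      rw [Finset.coe_Ico]
      exact ⟨Finset.card_pos.2 (bary_pos hτ).1, hτσ⟩
    · rintro τ ⟨hτ, -⟩ τ' ⟨hτ', -⟩ h
      exact bary_inj hτ hτ' h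
  rw [Set.ncard_coe_finset, Nat.card_Ico] at h2
  omega

/-- **Complexes**, vectors -/
theorem vec_cplx (D : AffMfd X Γ E dev hol) (hf : ∀ (γ : Γ) (x : X), γ • x = x → γ = 1)
    (m : NoFld dev hol K H x₀)
    {A Y : Type} [TopologicalSpace Y] [ContractibleSpace Y] [MulAction K Y] [MulAction K A]
    (hY : ∀ γ : K, Continuous fun y : Y => γ • y) {w : A → Y → ℝ} (h : Coord K w)
    {F : Finset A → Submodule ℝ E} {W : Submodule ℝ E}
    (hWV : W ≤ H.direction) (hW : ∀ γ ∈ K, ∀ v ∈ W, lin hol γ v ∈ W)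
    (hWF : ∀ σ, Simp w σ → W ≤ F σ ∧ F σ ≤ H.direction)
    (hF : ∀ (γ : K) σ, Simp w σ → ∀ v ∈ F σ, lin hol γ.1 v ∈ F (move γ σ))
    (hs : ∀ (γ : K) σ, Simp w σ → move γ σ = σ →
      ∃ c : ℝ, 0 < c ∧ ∀ v ∈ F σ, lin hol γ.1 v - c • v ∈ W) :
    ∃ σ, Simp w σ ∧ Module.finrank ℝ (F σ) < Module.finrank ℝ W + σ.card := by
  classical
  obtain ⟨f, hfc, hfe⟩ := emap D hf m.fin hY
  have hsm : ∀ (γ : K) σ, Simp w (move γ σ) ↔ Simp w σ := by
    have h1 : ∀ (γ : K) σ, Simp w σ → Simp w (move γ σ) := by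
      rintro γ σ ⟨⟨a, ha⟩, y, hy⟩
      refine ⟨⟨γ • a, (mem_move γ σ a).2 ha⟩, γ • y, fun b hb => ?_⟩
      rw [move_inv] at hb
      have h4 := h.equi γ (γ⁻¹ • b) y
      rw [smul_inv_smul] at h4
      rw [h4]
      exact hy _ hb
    intro γ σ
    refine ⟨fun h2 => ?_, h1 γ σ⟩
    have h3 := h1 γ⁻¹ _ h2
    have h4 : move γ⁻¹ (move γ σ) = σ := by
      ext a
      rw [move_inv, inv_inv, mem_move]
    rwa [h4] at h3
  letI := moveAct K A
  obtain ⟨σ, x, hx, hxσ, h1⟩ := vec_sub D m.fin m.mem m.inv m.fld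
    (cplx_cov (dev := dev) (H := (H : Set E)) h hfc hfe)
    (F := fun σ => if Simp w σ then F σ else W) (W := W) hWV hW
    (by
      intro σ
      by_cases hσ : Simp w σ
      · rw [if_pos hσ]
        exact hWF σ hσ
      · rw [if_neg hσ]
        exact ⟨le_rfl, hWV⟩)
    (by
      intro γ σ v hv
      show lin hol γ.1 v ∈ (if Simp w (move γ σ) then F (move γ σ) else W)
      by_cases hσ : Simp w σ
      · rw [if_pos hσ] at hv
        rw [if_pos ((hsm γ σ).2 hσ)]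
        exact hF γ σ hσ v hv
      · rw [if_neg hσ] at hv
        rw [if_neg fun h => hσ ((hsm γ σ).1 h)]
        exact hW γ.1 γ.2 v hv)
    (by
      intro γ σ hγ
      by_cases hσ : Simp w σ
      · rw [if_pos hσ]
        exact hs γ σ hσ hγ
      · rw [if_neg hσ]
        exact ⟨1, one_pos, fun v hv => W.sub_mem (hW γ.1 γ.2 v hv) (W.smul_mem _ hv)⟩)
  have h2 : Simp w σ := ⟨(bary_pos hxσ).1, f x, (bary_pos hxσ).2⟩
  have h1' : Module.finrank ℝ (if Simp w σ then F σ else W : Submodule ℝ E) ≤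
    Module.finrank ℝ W +
      (Low (fun σ : Finset A => f ⁻¹' Bary w σ) (fun σ => σ.card) σ.card x).ncard := h1
  rw [if_pos h2] at h1'
  have h3 := cplx_low (f := f) hxσ
  exact ⟨σ, h2, by omega⟩

/-- **Complexes**, forms -/
theorem form_cplx (D : AffMfd X Γ E dev hol) (hf : ∀ (γ : Γ) (x : X), γ • x = x → γ = 1)
    (m : NoFld dev hol K H x₀)
    {A Y : Type} [TopologicalSpace Y] [ContractibleSpace Y] [MulAction K Y] [MulAction K A]
    (hY : ∀ γ : K, Continuous fun y : Y => γ • y) {w : A → Y → ℝ} (h : Coord K w)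
    {N : Finset A → Submodule ℝ E} {W : Submodule ℝ E}
    (hWV : W ≤ H.direction) (hW : ∀ γ ∈ K, ∀ v ∈ W, lin hol γ v ∈ W)
    (hNW : ∀ σ, Simp w σ → N σ ≤ W)
    (hN : ∀ (γ : K) σ, Simp w σ → ∀ v ∈ N σ, lin hol γ.1 v ∈ N (move γ σ))
    (hs : ∀ (γ : K) σ, Simp w σ → move γ σ = σ →
      ∃ c : ℝ, 0 < c ∧ ∀ v ∈ W, lin hol γ.1 v - c • v ∈ N σ) :
    ∃ σ, Simp w σ ∧ Module.finrank ℝ W < Module.finrank ℝ (N σ) + σ.card := by
  classical
  obtain ⟨f, hfc, hfe⟩ := emap D hf m.fin hY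
  have hsm : ∀ (γ : K) σ, Simp w (move γ σ) ↔ Simp w σ := by
    have h1 : ∀ (γ : K) σ, Simp w σ → Simp w (move γ σ) := by
      rintro γ σ ⟨⟨a, ha⟩, y, hy⟩
      refine ⟨⟨γ • a, (mem_move γ σ a).2 ha⟩, γ • y, fun b hb => ?_⟩
      rw [move_inv] at hb
      have h4 := h.equi γ (γ⁻¹ • b) y
      rw [smul_inv_smul] at h4
      rw [h4]
      exact hy _ hb
    intro γ σ
    refine ⟨fun h2 => ?_, h1 γ σ⟩
    have h3 := h1 γ⁻¹ _ h2
    have h4 : move γ⁻¹ (move γ σ) = σ := by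
      ext a
      rw [move_inv, inv_inv, mem_move]
    rwa [h4] at h3
  letI := moveAct K A
  obtain ⟨σ, x, hx, hxσ, h1⟩ := form_sub D m.fin m.mem m.inv m.fld
    (cplx_cov (dev := dev) (H := (H : Set E)) h hfc hfe)
    (N := fun σ => if Simp w σ then N σ else W) (W := W) hWV hW
    (by
      intro σ
      by_cases hσ : Simp w σ
      · rw [if_pos hσ]
        exact hNW σ hσ
      · rw [if_neg hσ])
    (by
      intro γ σ v hv
      show lin hol γ.1 v ∈ (if Simp w (move γ σ) then N (move γ σ) else W)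
      by_cases hσ : Simp w σ
      · rw [if_pos hσ] at hv
        rw [if_pos ((hsm γ σ).2 hσ)]
        exact hN γ σ hσ v hv
      · rw [if_neg hσ] at hv
        rw [if_neg fun h => hσ ((hsm γ σ).1 h)]
        exact hW γ.1 γ.2 v hv)
    (by
      intro γ σ hγ
      by_cases hσ : Simp w σ
      · rw [if_pos hσ]
        exact hs γ σ hσ hγ
      · rw [if_neg hσ]
        exact ⟨1, one_pos, fun v hv => W.sub_mem (hW γ.1 γ.2 v hv) (W.smul_mem _ hv)⟩)
  have h2 : Simp w σ := ⟨(bary_pos hxσ).1, f x, (bary_pos hxσ).2⟩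
  have h1' : Module.finrank ℝ W ≤
    Module.finrank ℝ (if Simp w σ then N σ else W : Submodule ℝ E) +
      (Low (fun σ : Finset A => f ⁻¹' Bary w σ) (fun σ => σ.card) σ.card x).ncard := h1
  rw [if_pos h2] at h1'
  have h3 := cplx_low (f := f) hxσ
  exact ⟨σ, h2, by omega⟩

end Pool.Agent.L5helper73.AM
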