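import Mathlib

/-!
# Equivariant maps from free cocompact spaces to contractible spaces
-/

set_option autoImplicit false

open Set Filter Topology

namespace Pool.Agent.L5helper73.AM

variable {X Γ Y : Type} [TopologicalSpace X] [Group Γ] [MulAction Γ X]
  [TopologicalSpace Y] [MulAction Γ Y]

/-- free, properly discontinuous, cocompact actions -/
structure FreeCC (X Γ : Type) [TopologicalSpace X] [Group Γ] [MulAction Γ X] : Prop where
  cont : ∀ γ : Γ, Continuous fun x : X => γ • x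
  free : ∀ (γ : Γ) (x : X), γ • x = x → γ = 1
  pd : ∀ K : Set X, IsCompact K → {γ : Γ | ∃ x ∈ K, γ • x ∈ K}.Finite
  cc : ∃ K : Set X, IsCompact K ∧ ∀ x : X, ∃ γ : Γ, ∃ k ∈ K, γ • k = x

/-- small neighbourhoods -/
theorem small [T2Space X] [LocallyCompactSpace X] (A : FreeCC X Γ) (x : X) :
    ∃ U : Set X, IsOpen U ∧ x ∈ U ∧ IsCompact (closure U) ∧
      ∀ (γ : Γ), (∃ y ∈ U, γ • y ∈ U) → γ = 1 := by
  classical
  obtain ⟨C, hC, hxC⟩ := exists_compact_mem_nhds x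
  have hfin := A.pd C hC
  have h1 : ∀ γ : Γ, γ ≠ 1 → ∃ O : Set X, IsOpen O ∧ x ∈ O ∧ ∀ y ∈ O, γ • y ∉ O := by
    intro γ hγ
    obtain ⟨P, Q, hP, hQ, hxP, hxQ, hPQ⟩ := t2_separation (fun h => hγ (A.free γ x h))
    refine ⟨Q ∩ (fun y => γ • y) ⁻¹' P, hQ.inter (hP.preimage (A.cont γ)), ⟨hxQ, hxP⟩, ?_⟩
    rintro y ⟨-, hy⟩ ⟨hy2, -⟩
    exact (Set.disjoint_left.1 hPQ) hy hy2
  choose! O hO hxO hOO using h1
  refine ⟨interior C ∩ ⋂ γ ∈ {γ : Γ | ∃ x ∈ C, γ • x ∈ C} \ {1}, O γ, ?_, ?_, ?_, ?_⟩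
  · exact isOpen_interior.inter ((hfin.subset sdiff_subset).isOpen_biInter
      fun γ hγ => hO γ hγ.2)
  · exact ⟨mem_interior_iff_mem_nhds.2 hxC, mem_iInter₂.2 fun γ hγ => hxO γ hγ.2⟩
  · refine hC.of_isClosed_subset isClosed_closure ?_
    exact closure_minimal (inter_subset_left.trans interior_subset) hC.isClosed
  · rintro γ ⟨y, hy, hγy⟩
    by_contra h
    have h2 : γ ∈ {γ : Γ | ∃ x ∈ C, γ • x ∈ C} \ {1} :=
      ⟨⟨y, interior_subset hy.1, interior_subset hγy.1⟩, h⟩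
    exact hOO γ h y (mem_iInter₂.1 hy.2 γ h2) (mem_iInter₂.1 hγy.2 γ h2)

/-- extension of maps to contractible spaces -/
theorem extend [T2Space X] [LocallyCompactSpace X] [ContractibleSpace Y] {W P : Set X}
    (hW : IsOpen W) (hP : IsCompact P) (hPW : P ⊆ W) {f : X → Y} (hf : ContinuousOn f W) :
    ∃ F : X → Y, Continuous F ∧ ∀ x ∈ P, F x = f x := by
  classical
  obtain ⟨P', hP', hPP', hP'W⟩ := exists_compact_between hP hW hPW
  obtain ⟨τ, hτ0, hτ1, hτ⟩ := exists_continuous_zero_one_of_isCompact hP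
    (isOpen_interior (s := P')).isClosed_compl (disjoint_compl_right_iff_subset.2 hPP')
  obtain ⟨y₀, ⟨h⟩⟩ := id_nullhomotopic Y
  let σ : X → unitInterval := fun x => ⟨τ x, hτ x⟩
  have hσ : Continuous σ := τ.continuous.subtype_mk _
  have h1 : ∀ x, x ∉ P' → h (σ x, f x) = y₀ := by
    intro x hx
    have h2 : σ x = 1 := Subtype.ext (hτ1 fun h3 => hx (interior_subset h3))
    rw [h2, h.apply_one]
    rfl
  refine ⟨fun x => if x ∈ W then h (σ x, f x) else y₀, ?_, ?_⟩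
  · rw [continuous_iff_continuousAt]
    intro x
    by_cases hx : x ∈ W
    · have h3 : ContinuousAt (fun x => h (σ x, f x)) x :=
        h.continuous.continuousAt.comp
          (hσ.continuousAt.prodMk (hf.continuousAt (hW.mem_nhds hx)))
      refine h3.congr ?_
      filter_upwards [hW.mem_nhds hx] with z hz
      rw [if_pos hz]
    · have h3 : ContinuousAt (fun _ : X => y₀) x := continuousAt_const
      refine h3.congr ?_
      filter_upwards [hP'.isClosed.isOpen_compl.mem_nhds (fun h => hx (hP'W h))] with z hz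
      by_cases hzW : z ∈ W
      · rw [if_pos hzW, h1 z hz]
      · rw [if_neg hzW]
  · intro x hx
    show (if x ∈ W then h (σ x, f x) else y₀) = f x
    have h2 : σ x = 0 := Subtype.ext (hτ0 hx)
    rw [if_pos (hPW hx), h2, h.apply_zero]
    rfl

/-- partial equivariant maps -/
def Part (Γ : Type) [Group Γ] [MulAction Γ X] (Y : Type) [TopologicalSpace Y] [MulAction Γ Y]
    (D : Set X) : Prop :=
  ∃ W : Set X, IsOpen W ∧ D ⊆ W ∧ (∀ (γ : Γ), ∀ x ∈ W, γ • x ∈ W) ∧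
    ∃ f : X → Y, ContinuousOn f W ∧ ∀ (γ : Γ), ∀ x ∈ W, f (γ • x) = γ • f x

theorem step [T2Space X] [LocallyCompactSpace X] [ContractibleSpace Y] (A : FreeCC X Γ)
    (hY : ∀ γ : Γ, Continuous fun y : Y => γ • y) {D C U : Set X} (hD : IsCompact D)
    (hCU : C ⊆ U) (hU : IsOpen U) (hUc : IsCompact (closure U))
    (hU1 : ∀ (γ : Γ), (∃ y ∈ U, γ • y ∈ U) → γ = 1) (hp : Part Γ Y D) :
    Part Γ Y (D ∪ C) := by
  classical
  obtain ⟨W, hW, hDW, hWi, f, hf, hfe⟩ := hp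
  obtain ⟨N₀, hN₀, hDN, hNW⟩ := exists_compact_between hD hW hDW
  let N : Set X := {x | ∃ γ : Γ, γ • x ∈ interior N₀}
  have hNo : IsOpen N := by
    have h1 : N = ⋃ γ : Γ, (fun x : X => γ • x) ⁻¹' interior N₀ := by
      ext x
      simp [N]
    rw [h1]
    exact isOpen_iUnion fun γ => isOpen_interior.preimage (A.cont γ)
  have hback : ∀ (γ : Γ) (x : X), γ • x ∈ W → x ∈ W := by
    intro γ x h
    have h1 := hWi γ⁻¹ _ h
    rwa [inv_smul_smul] at h1
  have hNsub : N ⊆ W := by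
    rintro x ⟨γ, hγ⟩
    exact hback γ x (hNW (interior_subset hγ))
  have hNi : ∀ (δ : Γ), ∀ x ∈ N, δ • x ∈ N := by
    rintro δ x ⟨γ, hγ⟩
    refine ⟨γ * δ⁻¹, ?_⟩
    rwa [mul_smul, inv_smul_smul]
  -- the compact set
  let T : Set Γ := {γ | ∃ x ∈ closure U, γ • x ∈ N₀}
  have hT : T.Finite := by
    refine (A.pd (closure U ∪ N₀) (hUc.union hN₀)).subset ?_
    rintro γ ⟨x, hx, hγx⟩
    exact ⟨x, Or.inl hx, Or.inr hγx⟩
  let P : Set X := closure U ∩ ⋃ γ ∈ T, (fun x : X => γ • x) ⁻¹' N₀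
  have hP : IsCompact P :=
    hUc.inter_right (hT.isClosed_biUnion fun γ _ => hN₀.isClosed.preimage (A.cont γ))
  have hPW : P ⊆ W := by
    rintro x ⟨-, hx⟩
    obtain ⟨γ, -, hγ⟩ := mem_iUnion₂.1 hx
    exact hback γ x (hNW hγ)
  have hNP : ∀ x ∈ N, x ∈ U → x ∈ P := by
    rintro x ⟨γ, hγ⟩ hx
    have h1 : γ • x ∈ N₀ := interior_subset hγ
    exact ⟨subset_closure hx, mem_iUnion₂.2 ⟨γ, ⟨x, subset_closure hx, h1⟩, h1⟩⟩
  obtain ⟨F, hF, hFf⟩ := extend hW hP hPW hf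
  obtain ⟨y₀⟩ : Nonempty Y := inferInstance
  let f' : X → Y := fun x => if x ∈ N then f x else
    if h : ∃ γ : Γ, γ • x ∈ U then (h.choose)⁻¹ • F (h.choose • x) else y₀
  have hf1 : ∀ x ∈ N, f' x = f x := fun x hx => if_pos hx
  have hf2 : ∀ (γ : Γ) (x : X), γ • x ∈ U → f' x = γ⁻¹ • F (γ • x) := by
    intro γ x hγ
    by_cases hx : x ∈ N
    · rw [hf1 x hx, hFf _ (hNP _ (hNi γ x hx) hγ), hfe γ x (hNsub hx), inv_smul_smul]
    · have h : ∃ γ : Γ, γ • x ∈ U := ⟨γ, hγ⟩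
      have h1 : f' x = (h.choose)⁻¹ • F (h.choose • x) := by
        show (if x ∈ N then f x else
          if h : ∃ γ : Γ, γ • x ∈ U then (h.choose)⁻¹ • F (h.choose • x) else y₀) = _
        rw [if_neg hx, dif_pos h]
      have h2 : γ * h.choose⁻¹ = 1 := by
        refine hU1 _ ⟨h.choose • x, h.choose_spec, ?_⟩
        rwa [mul_smul, inv_smul_smul]
      rw [mul_inv_eq_one] at h2
      rw [h1, ← h2]
  refine ⟨N ∪ {x | ∃ γ : Γ, γ • x ∈ U}, ?_, ?_, ?_, f', ?_, ?_⟩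
  · have h1 : {x : X | ∃ γ : Γ, γ • x ∈ U} = ⋃ γ : Γ, (fun x : X => γ • x) ⁻¹' U := by
      ext x
      simp
    rw [h1]
    exact hNo.union (isOpen_iUnion fun γ => hU.preimage (A.cont γ))
  · rintro x (hx | hx)
    · refine Or.inl ⟨1, ?_⟩
      rw [one_smul]
      exact hDN hx
    · refine Or.inr ⟨1, ?_⟩
      rw [one_smul]
      exact hCU hx
  · rintro δ x (hx | ⟨γ, hγ⟩)
    · exact Or.inl (hNi δ x hx)
    · refine Or.inr ⟨γ * δ⁻¹, ?_⟩
      rwa [mul_smul, inv_smul_smul]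
  · rintro x (hx | ⟨γ, hγ⟩)
    · refine ContinuousAt.continuousWithinAt ?_
      refine (hf.continuousAt (hW.mem_nhds (hNsub hx))).congr ?_
      filter_upwards [hNo.mem_nhds hx] with z hz
      exact (hf1 z hz).symm
    · refine ContinuousAt.continuousWithinAt ?_
      have h1 : ContinuousAt (fun z : X => γ⁻¹ • F (γ • z)) x :=
        ((hY γ⁻¹).comp (hF.comp (A.cont γ))).continuousAt
      refine h1.congr ?_
      filter_upwards [(hU.preimage (A.cont γ)).mem_nhds hγ] with z hz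
      exact (hf2 γ z hz).symm
  · rintro δ x (hx | ⟨γ, hγ⟩)
    · rw [hf1 _ (hNi δ x hx), hf1 x hx, hfe δ x (hNsub hx)]
    · have h1 : (γ * δ⁻¹) • δ • x ∈ U := by
        rwa [mul_smul, inv_smul_smul]
      rw [hf2 _ _ h1, hf2 γ x hγ, mul_smul γ δ⁻¹ (δ • x), inv_smul_smul, mul_inv_rev, inv_inv,
        mul_smul]

/-- **Equivariant maps to contractible spaces** -/
theorem exists_map [T2Space X] [LocallyCompactSpace X] [ContractibleSpace Y] (A : FreeCC X Γ)
    (hY : ∀ γ : Γ, Continuous fun y : Y => γ • y) :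
    ∃ f : X → Y, Continuous f ∧ ∀ (γ : Γ) (x : X), f (γ • x) = γ • f x := by
  classical
  obtain ⟨K, hK, hKX⟩ := A.cc
  choose U hU hxU hUc hU1 using small A
  have h1 : ∀ x : X, ∃ C : Set X, IsCompact C ∧ x ∈ interior C ∧ C ⊆ U x := fun x =>
    exists_compact_subset (hU x) (hxU x)
  choose C hC hxC hCU using h1
  obtain ⟨s, hs⟩ := hK.elim_finite_subcover (fun x => interior (C x)) (fun x => isOpen_interior)
    (fun x _ => mem_iUnion.2 ⟨x, hxC x⟩)
  have h2 : ∀ s : Finset X, Part Γ Y (⋃ x ∈ s, C x) := by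
    intro s
    induction s using Finset.induction_on with
    | empty =>
      obtain ⟨y₀⟩ : Nonempty Y := inferInstance
      refine ⟨∅, isOpen_empty, by simp, fun γ x hx => hx.elim, fun _ => y₀, continuousOn_empty _,
        fun γ x hx => hx.elim⟩
    | insert a s has ih =>
      have h3 : (⋃ x ∈ insert a s, C x) = (⋃ x ∈ s, C x) ∪ C a := by
        rw [Finset.set_biUnion_insert, union_comm]
      rw [h3]
      exact step A hY (s.isCompact_biUnion fun x _ => hC x) (hCU a) (hU a) (hUc a) (hU1 a) ih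
  obtain ⟨W, hW, hsW, hWi, f, hf, hfe⟩ := h2 s
  have hWX : ∀ x, x ∈ W := by
    intro x
    obtain ⟨γ, k, hk, rfl⟩ := hKX x
    refine hWi γ k (hsW ?_)
    obtain ⟨y, hy, hky⟩ := mem_iUnion₂.1 (hs hk)
    exact mem_iUnion₂.2 ⟨y, hy, interior_subset hky⟩
  refine ⟨f, continuous_iff_continuousAt.2 fun x => hf.continuousAt (hW.mem_nhds (hWX x)),
    fun γ x => hfe γ x (hWX x)⟩

end Pool.Agent.L5helper73.AM
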