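import Pool.Agent.L5helper73.AM.Cons

/-!
# Convex valued families with local continuous selections
-/

set_option autoImplicit false

open Set Filter Topology Metric

namespace Pool.Agent.L5helper73.AM

open Pool.Agent.W689.Ch Pool.Agent.TH845.Mk Pool.Agent.Y150.Ch Pool.Agent.L5helper91.CH
open Pool.Agent.L5helper76.CF (NoFld map_gen)
open Pool.Agent.W689.Mk (lin hol_cont hol_sub hol_add)

section sec

variable {X Γ E W : Type} [TopologicalSpace X] [T2Space X] [Group Γ] [MulAction Γ X]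
  [NormedAddCommGroup E] [NormedSpace ℝ E] [FiniteDimensional ℝ E]
  [NormedAddCommGroup W] [NormedSpace ℝ W] [FiniteDimensional ℝ W]
  {dev : X → E} {hol : Γ →* (E ≃ᵃ[ℝ] E)}

/-- An equivariant map from the cover to the nonempty convex subsets of `W` with local continuous
selections has an equivariant continuous selection. -/
theorem sec_of_local (D : AffMfd X Γ E dev hol) (L : Γ →* Module.End ℝ W) {C : X → Set W}
    (hc : ∀ x, Convex ℝ (C x)) (hi : ∀ (γ : Γ) x, ∀ v ∈ C x, L γ v ∈ C (γ • x))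
    (ho : ∀ x, ∃ N ∈ 𝓝 x, ∃ s : X → W, ContinuousOn s N ∧ ∀ z ∈ N, s z ∈ C z) :
    ∃ Z : X → W, Continuous Z ∧ (∀ (γ : Γ) x, Z (γ • x) = L γ (Z x)) ∧ ∀ x, Z x ∈ C x := by
  have := locComp D
  obtain ⟨ρ, hρ⟩ := exists_wt D
  choose N hN s hs hsC using ho
  let U : X → Set X := fun x => interior (N x)
  have hUo : ∀ x, IsOpen (U x) := fun x => isOpen_interior
  have hUx : ∀ x, x ∈ U x := fun x => mem_interior_iff_mem_nhds.2 (hN x)
  have hUN : ∀ x, U x ⊆ N x := fun x => interior_subset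
  obtain ⟨t, ht⟩ := hρ.cpt.isCompact.elim_finite_subcover U hUo
    (fun x _ => mem_iUnion.2 ⟨x, hUx x⟩)
  let e := t.equivFin
  obtain ⟨f, hf1, hf2, hf3, -⟩ := exists_continuous_sum_one_of_isOpen_isCompact
    (s := fun i : Fin t.card => U (e.symm i).1) (fun i => hUo _) hρ.cpt.isCompact (by
      intro x hx
      obtain ⟨z, hz⟩ := mem_iUnion.1 (ht hx)
      obtain ⟨hzt, hxz⟩ := mem_iUnion.1 hz
      refine mem_iUnion.2 ⟨e ⟨z, hzt⟩, ?_⟩
      rw [Equiv.symm_apply_apply]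
      exact hxz)
  let Q : X → W := fun x => ∑ i, f i x • s (e.symm i).1 x
  have hQ : Continuous Q := by
    refine continuous_finsetSum _ fun i _ => continuous_iff_continuousAt.2 fun z => ?_
    by_cases hz : z ∈ U (e.symm i).1
    · exact (f i).continuous.continuousAt.smul ((hs _).continuousAt
        (mem_of_superset ((hUo _).mem_nhds hz) (hUN _)))
    · have h1 : z ∉ tsupport (f i) := fun h => hz (hf1 i h)
      have h2 : ∀ᶠ z' in 𝓝 z, f i z' • s (e.symm i).1 z' = 0 := by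
        filter_upwards [(isClosed_tsupport (f i)).isOpen_compl.mem_nhds h1] with z' hz'
        rw [image_eq_zero_of_notMem_tsupport hz', zero_smul]
      exact (continuousAt_const (y := (0 : W))).congr (h2.mono fun _ h => h.symm)
  obtain ⟨h1, h2⟩ := avgW D L hρ hQ
  refine ⟨_, h1, h2, fun x => ?_⟩
  have hQm : ∀ z, ρ z ≠ 0 → Q z ∈ C z := by
    intro z hz
    have hzt : z ∈ tsupport ρ := subset_tsupport _ hz
    have hs : ∑ i, f i z = 1 := by
      have := hf2 hzt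
      simpa using this
    have e2 : Q z =
        ∑ i ∈ Finset.univ.filter (fun i => f i z ≠ 0), f i z • s (e.symm i).1 z := by
      rw [Finset.sum_filter]
      refine Finset.sum_congr rfl fun i _ => ?_
      by_cases h : f i z = 0
      · rw [if_neg (not_not.2 h), h, zero_smul]
      · rw [if_pos h]
    have e3 : ∑ i ∈ Finset.univ.filter (fun i => f i z ≠ 0), f i z = 1 := by
      rw [← hs, Finset.sum_filter]
      refine Finset.sum_congr rfl fun i _ => ?_
      by_cases h : f i z = 0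
      · rw [if_neg (not_not.2 h), h]
      · rw [if_pos h]
    rw [e2]
    refine (hc z).sum_mem (fun i _ => (hf3 i z).1) e3 fun i hi => ?_
    have h3 : f i z ≠ 0 := (Finset.mem_filter.1 hi).2
    exact hsC _ z (hUN _ (hf1 i (subset_tsupport _ h3)))
  obtain ⟨V, hV, F, hF⟩ := hρ.locfin x
  have hxV := mem_of_mem_nhds hV
  have hs : ∑ γ ∈ F, ρ (γ • x) = 1 := by
    rw [← hρ.sum x]
    exact (tsum_eq_sum fun γ hγ => hF γ hγ x hxV).symm
  have h3 : ∑' γ : Γ, ρ (γ • x) • L γ⁻¹ (Q (γ • x)) =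
      ∑ γ ∈ F, ρ (γ • x) • L γ⁻¹ (Q (γ • x)) :=
    tsum_eq_sum fun γ hγ => by rw [hF γ hγ x hxV, zero_smul]
  have h6 : ∑ γ ∈ F, ρ (γ • x) • L γ⁻¹ (Q (γ • x)) =
      ∑ γ ∈ F.filter (fun γ => ρ (γ • x) ≠ 0), ρ (γ • x) • L γ⁻¹ (Q (γ • x)) := by
    rw [Finset.sum_filter]
    refine Finset.sum_congr rfl fun γ _ => ?_
    by_cases h : ρ (γ • x) = 0
    · rw [if_neg (not_not.2 h), h, zero_smul]
    · rw [if_pos h]
  have h7 : ∑ γ ∈ F.filter (fun γ => ρ (γ • x) ≠ 0), ρ (γ • x) = 1 := by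
    rw [← hs, Finset.sum_filter]
    refine Finset.sum_congr rfl fun γ _ => ?_
    by_cases h : ρ (γ • x) = 0
    · rw [if_neg (not_not.2 h), h]
    · rw [if_pos h]
  show ∑' γ : Γ, ρ (γ • x) • L γ⁻¹ (Q (γ • x)) ∈ C x
  rw [h3, h6]
  refine (hc x).sum_mem (fun γ _ => hρ.nonneg _) h7 fun γ hγ => ?_
  have h9 := hi γ⁻¹ _ _ (hQm (γ • x) (Finset.mem_filter.1 hγ).2)
  rwa [inv_smul_smul] at h9

end sec

variable {X Γ E : Type} [TopologicalSpace X] [T2Space X] [Group Γ] [MulAction Γ X]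
  [NormedAddCommGroup E] [NormedSpace ℝ E] [FiniteDimensional ℝ E]
  {dev : X → E} {hol : Γ →* (E ≃ᵃ[ℝ] E)} {K : Subgroup Γ} {H : AffineSubspace ℝ E} {x₀ : X}

/-- **The selection principle** -/
theorem sel_full (D : AffMfd X Γ E dev hol) (hf : ∀ (γ : Γ) (x : X), γ • x = x → γ = 1)
    (hno : ¬ ∃ Z : X → E, Continuous Z ∧ (∀ (γ : Γ) x, Z (γ • x) = lin hol γ (Z x)) ∧
      ∀ x, Z x ≠ 0)
    {Y : Type} [TopologicalSpace Y] [ContractibleSpace Y] [MulAction Γ Y]
    (hY : ∀ γ : Γ, Continuous fun y : Y => γ • y)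
    {S : X × Y → Set E} (hc : ∀ p, Convex ℝ (S p))
    (ho : ∀ p, ∃ N ∈ 𝓝 p, ∃ s : X × Y → E, ContinuousOn s N ∧ ∀ q ∈ N, s q ∈ S q)
    (he : ∀ (γ : Γ) x y, ∀ v ∈ S (x, y), lin hol γ v ∈ S (γ • x, γ • y)) :
    ∃ p, (0 : E) ∈ S p := by
  by_contra hcon
  push Not at hcon
  have := locComp D
  obtain ⟨f, hfc, hfe⟩ := exists_map (Y := Y) (freeCC D hf) hY
  have hg : Continuous fun x => (x, f x) := continuous_id.prodMk hfc
  obtain ⟨Z, h1, h2, h3⟩ := sec_of_local D (LinHom hol) (C := fun x => S (x, f x))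
    (fun x => hc _)
    (fun γ x v hv => by
      rw [hfe]
      exact he γ x (f x) v hv)
    (fun x => by
      obtain ⟨N, hN, s, hs, hsS⟩ := ho (x, f x)
      exact ⟨(fun x => (x, f x)) ⁻¹' N, hg.continuousAt hN, fun x => s (x, f x),
        hs.comp hg.continuousOn fun z hz => hz, fun z hz => hsS _ hz⟩)
  exact hno ⟨Z, h1, h2, fun x hx => hcon (x, f x) (by rw [← hx]; exact h3 x)⟩

theorem sel_sub (D : AffMfd X Γ E dev hol) (hf : ∀ (γ : Γ) (x : X), γ • x = x → γ = 1)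
    (m : NoFld dev hol K H x₀)
    {Y : Type} [TopologicalSpace Y] [ContractibleSpace Y] [MulAction K Y]
    (hY : ∀ γ : K, Continuous fun y : Y => γ • y)
    {S : X × Y → Set E} (hV : ∀ x, dev x ∈ H → ∀ y, S (x, y) ⊆ H.direction)
    (hc : ∀ x, dev x ∈ H → ∀ y, Convex ℝ (S (x, y)))
    (ho : ∀ x, dev x ∈ H → ∀ y, ∃ N ∈ 𝓝 (x, y), ∃ s : X × Y → E,
      ContinuousOn s (N ∩ {x | dev x ∈ H} ×ˢ univ) ∧
      ∀ q ∈ N, dev q.1 ∈ H → s q ∈ S q)
    (he : ∀ (γ : K) x, dev x ∈ H → ∀ y, ∀ v ∈ S (x, y), lin hol γ.1 v ∈ S (γ.1 • x, γ • y)) :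
    ∃ x, dev x ∈ H ∧ ∃ y, (0 : E) ∈ S (x, y) := by
  have hK := m.fin
  have hinvH : ∀ (γ : K), ∀ q ∈ H, (hol.comp K.subtype) γ q ∈ H :=
    fun γ q hq => m.inv γ.1 γ.2 q hq
  let _ := subAct (restr D K hK) hinvH
  have D' := subMfd (restr D K hK) m.mem hinvH
  have hj : Continuous fun p : {x : X // dev x ∈ H} × Y => (p.1.1, p.2) :=
    (continuous_subtype_val.comp continuous_fst).prodMk continuous_snd
  obtain ⟨⟨x, y⟩, h⟩ := sel_full D' (fun γ x hx => by
      have h1 : γ.1 • x.1 = x.1 := congrArg Subtype.val hx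
      exact Subtype.ext (hf γ.1 x.1 h1))
    (fun h => m.fld (fld_of_sub (restr D K hK) m.mem hinvH h)) hY
    (S := fun p => {v : H.direction | v.1 ∈ S (p.1.1, p.2)})
    (fun p => by
      intro v hv w hw a b ha hb hab
      exact hc p.1.1 p.1.2 p.2 hv hw ha hb hab)
    (fun p => by
      classical
      obtain ⟨N, hN, s, hs, hsS⟩ := ho p.1.1 p.1.2 p.2
      refine ⟨(fun p : {x : X // dev x ∈ H} × Y => (p.1.1, p.2)) ⁻¹' N, hj.continuousAt hN,
        fun q => if h : s (q.1.1, q.2) ∈ H.direction then ⟨s (q.1.1, q.2), h⟩ else 0, ?_, ?_⟩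
      · rw [Topology.IsInducing.subtypeVal.continuousOn_iff]
        have h1 : ContinuousOn (fun q : {x : X // dev x ∈ H} × Y => s (q.1.1, q.2))
            ((fun p : {x : X // dev x ∈ H} × Y => (p.1.1, p.2)) ⁻¹' N) :=
          hs.comp hj.continuousOn fun q hq => ⟨hq, q.1.2, mem_univ _⟩
        refine h1.congr fun q hq => ?_
        have h2 : s (q.1.1, q.2) ∈ H.direction := hV _ q.1.2 _ (hsS _ hq q.1.2)
        show ((if h : s (q.1.1, q.2) ∈ H.direction then (⟨s (q.1.1, q.2), h⟩ : H.direction)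
          else 0 : H.direction) : E) = s (q.1.1, q.2)
        rw [dif_pos h2]
      · intro q hq
        have h3 := hsS _ hq q.1.2
        have h2 : s (q.1.1, q.2) ∈ H.direction := hV _ q.1.2 _ h3
        show ((if h : s (q.1.1, q.2) ∈ H.direction then (⟨s (q.1.1, q.2), h⟩ : H.direction)
          else 0 : H.direction) : E) ∈ S (q.1.1, q.2)
        rw [dif_pos h2]
        exact h3)
    (fun γ x y v hv => he γ x.1 x.2 y v.1 hv)
  exact ⟨x.1, x.2, y, h⟩

end Pool.Agent.L5helper73.AM
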