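import Pool.Agent.L5helper73.AM.Map
import Pool.Agent.L5helper91.CH.Sub
import Pool.Agent.L5helper76.CF.A

/-!
# Families parametrised by contractible spaces with a group action
-/

set_option autoImplicit false

open Set Filter Topology Metric

namespace Pool.Agent.L5helper73.AM

open Pool.Agent.W689.Ch Pool.Agent.TH845.Mk Pool.Agent.Y150.Ch Pool.Agent.L5helper91.CH
open Pool.Agent.L5helper76.CF (NoFld)
open Pool.Agent.W689.Mk (lin)

variable {X Γ E : Type} [TopologicalSpace X] [T2Space X] [Group Γ] [MulAction Γ X]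
  [NormedAddCommGroup E] [NormedSpace ℝ E] [FiniteDimensional ℝ E]
  {dev : X → E} {hol : Γ →* (E ≃ᵃ[ℝ] E)} {K : Subgroup Γ} {H : AffineSubspace ℝ E} {x₀ : X}

omit [T2Space X] [FiniteDimensional ℝ E] in
theorem freeCC (D : AffMfd X Γ E dev hol) (hf : ∀ (γ : Γ) (x : X), γ • x = x → γ = 1) :
    FreeCC X Γ := ⟨D.cont, hf, D.pd, D.cc⟩

/-- there are zeros of families of sections -/
theorem zero_full (D : AffMfd X Γ E dev hol) (hf : ∀ (γ : Γ) (x : X), γ • x = x → γ = 1)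
    (hno : ¬ ∃ Z : X → E, Continuous Z ∧ (∀ (γ : Γ) x, Z (γ • x) = lin hol γ (Z x)) ∧
      ∀ x, Z x ≠ 0)
    {Y : Type} [TopologicalSpace Y] [ContractibleSpace Y] [MulAction Γ Y]
    (hY : ∀ γ : Γ, Continuous fun y : Y => γ • y)
    {s : X → Y → E} (hs : Continuous fun p : X × Y => s p.1 p.2)
    (he : ∀ (γ : Γ) x y, ∃ c : ℝ, 0 < c ∧ s (γ • x) (γ • y) = c • lin hol γ (s x y)) :
    ∃ x y, s x y = 0 := by
  by_contra hcon
  push Not at hcon
  have := locComp D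
  obtain ⟨f, hfc, hfe⟩ := exists_map (Y := Y) (freeCC D hf) hY
  obtain ⟨ρ, hρ⟩ := exists_wt D
  obtain ⟨h1, h2⟩ := avgW D (LinHom hol) hρ (f := fun x => s x (f x))
    (hs.comp (continuous_id.prodMk hfc))
  refine hno ⟨_, h1, h2, fun x => ?_⟩
  obtain ⟨U, hU, F, hF⟩ := hρ.locfin x
  have hx := mem_of_mem_nhds hU
  have hsum : ∑ γ ∈ F, ρ (γ • x) = 1 := by
    rw [← hρ.sum x]
    exact (tsum_eq_sum fun γ hγ => hF γ hγ x hx).symm
  choose c hc0 hc using fun γ : Γ => he γ x (f x)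
  have h3 : ∀ γ : Γ, LinHom hol γ⁻¹ (s (γ • x) (f (γ • x))) = c γ • s x (f x) := by
    intro γ
    rw [hfe, hc, map_smul, ← linHom_apply]
    congr 1
    exact L_inv_apply (LinHom hol) γ (s x (f x))
  have h4 : (∑' γ : Γ, ρ (γ • x) • (LinHom hol) γ⁻¹ (s (γ • x) (f (γ • x)))) =
      (∑ γ ∈ F, ρ (γ • x) * c γ) • s x (f x) := by
    rw [tsum_eq_sum fun γ hγ => by rw [hF γ hγ x hx, zero_smul], Finset.sum_smul]
    refine Finset.sum_congr rfl fun γ _ => ?_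
    rw [h3, smul_smul]
  show (∑' γ : Γ, ρ (γ • x) • (LinHom hol) γ⁻¹ (s (γ • x) (f (γ • x)))) ≠ 0
  rw [h4]
  refine smul_ne_zero ?_ (hcon x (f x))
  obtain ⟨γ, hγF, hγ⟩ : ∃ γ ∈ F, 0 < ρ (γ • x) := by
    by_contra h
    push Not at h
    have h5 : ∑ γ ∈ F, ρ (γ • x) ≤ 0 := Finset.sum_nonpos h
    linarith
  have h5 : 0 < ∑ γ ∈ F, ρ (γ • x) * c γ :=
    Finset.sum_pos' (fun γ _ => mul_nonneg (hρ.nonneg _) (hc0 γ).le) ⟨γ, hγF, mul_pos hγ (hc0 γ)⟩
  exact h5.ne'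

/-- the same over an invariant affine subspace -/
theorem zero_sub (D : AffMfd X Γ E dev hol) (hf : ∀ (γ : Γ) (x : X), γ • x = x → γ = 1)
    (m : NoFld dev hol K H x₀)
    {Y : Type} [TopologicalSpace Y] [ContractibleSpace Y] [MulAction K Y]
    (hY : ∀ γ : K, Continuous fun y : Y => γ • y)
    {s : X → Y → E} (hs : ContinuousOn (fun p : X × Y => s p.1 p.2) ({x | dev x ∈ H} ×ˢ univ))
    (hV : ∀ x, dev x ∈ H → ∀ y, s x y ∈ H.direction)
    (he : ∀ (γ : K) x, dev x ∈ H → ∀ y, ∃ c : ℝ, 0 < c ∧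
      s (γ.1 • x) (γ • y) = c • lin hol γ.1 (s x y)) :
    ∃ x, dev x ∈ H ∧ ∃ y, s x y = 0 := by
  have hK := m.fin
  have hinvH : ∀ (γ : K), ∀ q ∈ H, (hol.comp K.subtype) γ q ∈ H :=
    fun γ q hq => m.inv γ.1 γ.2 q hq
  let _ := subAct (restr D K hK) hinvH
  have D' := subMfd (restr D K hK) m.mem hinvH
  obtain ⟨x, y, h⟩ := zero_full D' (fun γ x hx => by
      have h1 : γ.1 • x.1 = x.1 := congrArg Subtype.val hx
      exact Subtype.ext (hf γ.1 x.1 h1))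
    (fun h => m.fld (fld_of_sub (restr D K hK) m.mem hinvH h)) hY
    (s := fun x y => ⟨s x.1 y, hV x.1 x.2 y⟩) (by
      refine Continuous.subtype_mk ?_ _
      rw [continuousOn_iff_continuous_domRestrict] at hs
      exact hs.comp ((Continuous.prodMk (continuous_subtype_val.comp continuous_fst)
        continuous_snd).subtype_mk (fun p => (⟨p.1.2, mem_univ _⟩ :
          ((p.1.1, p.2) : X × Y) ∈ {x | dev x ∈ H} ×ˢ univ))))
    (fun γ x y => by
      obtain ⟨c, hc, h1⟩ := he γ x.1 x.2 y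
      exact ⟨c, hc, Subtype.ext h1⟩)
  exact ⟨x.1, x.2, y, congrArg Subtype.val h⟩

/-- set valued sections -/
theorem conv_full (D : AffMfd X Γ E dev hol) (hf : ∀ (γ : Γ) (x : X), γ • x = x → γ = 1)
    (hno : ¬ ∃ Z : X → E, Continuous Z ∧ (∀ (γ : Γ) x, Z (γ • x) = lin hol γ (Z x)) ∧
      ∀ x, Z x ≠ 0)
    {Y : Type} [TopologicalSpace Y] [ContractibleSpace Y] [MulAction Γ Y]
    (hY : ∀ γ : Γ, Continuous fun y : Y => γ • y)
    {S : X → Y → Set E} (hne : ∀ x y, (S x y).Nonempty) (hc : ∀ x y, Convex ℝ (S x y))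
    (ho : ∀ x y, ∀ v ∈ S x y, ∀ᶠ p : X × Y in 𝓝 (x, y), v ∈ S p.1 p.2)
    (he : ∀ (γ : Γ) x y, ∀ v ∈ S x y, lin hol γ v ∈ S (γ • x) (γ • y)) :
    ∃ x y, (0 : E) ∈ S x y := by
  by_contra hcon
  push Not at hcon
  have := locComp D
  obtain ⟨f, hfc, hfe⟩ := exists_map (Y := Y) (freeCC D hf) hY
  obtain ⟨Z, h1, h2, h3⟩ := sec_of_cone D (LinHom hol) (C := fun x => S x (f x))
    (fun x => hne _ _) (fun x => hc _ _)
    (fun γ x v hv => by
      rw [hfe]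
      exact he γ x (f x) v hv)
    (fun x v hv => by
      have h1 := ho x (f x) v hv
      have h2 : Tendsto (fun z => (z, f z)) (𝓝 x) (𝓝 (x, f x)) :=
        (continuous_id.prodMk hfc).continuousAt
      exact h2.eventually h1)
  exact hno ⟨Z, h1, h2, fun x hx => hcon x (f x) (by rw [← hx]; exact h3 x)⟩

theorem conv_sub (D : AffMfd X Γ E dev hol) (hf : ∀ (γ : Γ) (x : X), γ • x = x → γ = 1)
    (m : NoFld dev hol K H x₀)
    {Y : Type} [TopologicalSpace Y] [ContractibleSpace Y] [MulAction K Y]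
    (hY : ∀ γ : K, Continuous fun y : Y => γ • y)
    {S : X → Y → Set E} (hV : ∀ x, dev x ∈ H → ∀ y, S x y ⊆ H.direction)
    (hne : ∀ x, dev x ∈ H → ∀ y, (S x y).Nonempty)
    (hc : ∀ x, dev x ∈ H → ∀ y, Convex ℝ (S x y))
    (ho : ∀ x, dev x ∈ H → ∀ y, ∀ v ∈ S x y, ∀ᶠ p : X × Y in 𝓝 (x, y),
      dev p.1 ∈ H → v ∈ S p.1 p.2)
    (he : ∀ (γ : K) x, dev x ∈ H → ∀ y, ∀ v ∈ S x y, lin hol γ.1 v ∈ S (γ.1 • x) (γ • y)) :
    ∃ x, dev x ∈ H ∧ ∃ y, (0 : E) ∈ S x y := by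
  have hK := m.fin
  have hinvH : ∀ (γ : K), ∀ q ∈ H, (hol.comp K.subtype) γ q ∈ H :=
    fun γ q hq => m.inv γ.1 γ.2 q hq
  let _ := subAct (restr D K hK) hinvH
  have D' := subMfd (restr D K hK) m.mem hinvH
  obtain ⟨x, y, h⟩ := conv_full D' (fun γ x hx => by
      have h1 : γ.1 • x.1 = x.1 := congrArg Subtype.val hx
      exact Subtype.ext (hf γ.1 x.1 h1))
    (fun h => m.fld (fld_of_sub (restr D K hK) m.mem hinvH h)) hY
    (S := fun x y => {v : H.direction | v.1 ∈ S x.1 y})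
    (fun x y => by
      obtain ⟨v, hv⟩ := hne x.1 x.2 y
      exact ⟨⟨v, hV x.1 x.2 y hv⟩, hv⟩)
    (fun x y => by
      intro v hv w hw a b ha hb hab
      exact hc x.1 x.2 y hv hw ha hb hab)
    (fun x y v hv => by
      have h1 := ho x.1 x.2 y v.1 hv
      have h2 : Tendsto (fun p : {x : X // dev x ∈ H} × Y => (p.1.1, p.2)) (𝓝 (x, y))
          (𝓝 (x.1, y)) :=
        ((continuous_subtype_val.comp continuous_fst).prodMk continuous_snd).continuousAt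
      filter_upwards [h2.eventually h1] with p hp
      exact hp p.1.2)
    (fun γ x y v hv => he γ x.1 x.2 y v.1 hv)
  exact ⟨x.1, x.2, y, h⟩

end Pool.Agent.L5helper73.AM
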